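import Pool.Agent.N206.CG.Stm

/-!
Project CG (helper206), B2 (helper413): sections of the elements of the model group.
-/

set_option autoImplicit false

namespace Pool.Agent.N413.CG

open Classical
open Pool.Agent.N206.CG

variable (L : Loc)

theorem app_inv {α : Type} (g : Equiv.Perm α) (w : α) : g (g⁻¹ w) = w := g.apply_symm_apply w

theorem psf_eq (n : ℕ) (b : L.B) (w : Om L) (m : ℕ) (h1 : n ≤ m) (h2 : w m ≠ L.z m)
    (h3 : ∀ j, n ≤ j → j < m → w j = L.z j) : psf L n b w =
      if w m ∈ L.X m then Function.update w (m + 1) (L.rho (m + 1) b (w (m + 1))) else w := by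
  have h : ∃ j, n ≤ j ∧ w j ≠ L.z j := ⟨m, h1, h2⟩
  have e : Nat.find h = m :=
    (Nat.find_eq_iff h).2 ⟨⟨h1, h2⟩, fun j hj hc => hc.2 (h3 j hc.1 hj)⟩
  unfold psf
  rw [dif_pos h, e]

theorem psf_none (n : ℕ) (b : L.B) (w : Om L) (h : ∀ j, n ≤ j → w j = L.z j) :
    psf L n b w = w := by
  unfold psf
  rw [dif_neg]
  rintro ⟨j, h1, h2⟩
  exact h2 (h j h1)

theorem cases_w (n : ℕ) (w : Om L) : (∀ j, n ≤ j → w j = L.z j) ∨
    ∃ m, n ≤ m ∧ w m ≠ L.z m ∧ ∀ j, n ≤ j → j < m → w j = L.z j := by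
  by_cases h : ∃ j, n ≤ j ∧ w j ≠ L.z j
  · refine Or.inr ⟨Nat.find h, (Nat.find_spec h).1, (Nat.find_spec h).2, fun j h1 h2 => ?_⟩
    by_contra hc
    exact Nat.find_min h h2 ⟨h1, hc⟩
  · left
    intro j hj
    by_contra hc
    exact h ⟨j, hj, hc⟩

theorem psf_apply (n : ℕ) (b : L.B) (w : Om L) : psf L (n + 1) b w n = w n := by
  rcases cases_w L (n + 1) w with h | ⟨m, h1, h2, h3⟩
  · rw [psf_none L _ _ _ h]
  · rw [psf_eq L _ _ _ m h1 h2 h3]
    split_ifs
    · rw [Function.update_of_ne (by omega)]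
    · rfl

theorem psf_update (n : ℕ) (b : L.B) (j : ℕ) (hj : j < n) (w : Om L) (y : L.E j) :
    psf L n b (Function.update w j y) = Function.update (psf L n b w) j y := by
  have hk : ∀ k, n ≤ k → Function.update w j y k = w k := fun k hk =>
    Function.update_of_ne (by omega) _ _
  rcases cases_w L n w with h | ⟨m, h1, h2, h3⟩
  · rw [psf_none L _ _ _ h, psf_none L]
    intro k h4
    rw [hk k h4, h k h4]
  · rw [psf_eq L _ _ _ m h1 h2 h3, psf_eq L n b (Function.update w j y) m h1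
      (by rw [hk m h1]; exact h2) (fun k h4 h5 => by rw [hk k h4]; exact h3 k h4 h5), hk m h1,
      hk (m + 1) (by omega)]
    split_ifs
    · exact Function.update_comm (by omega) _ _ _
    · rfl

theorem psf_z (n : ℕ) (b : L.B) (w : Om L) (h : w n = L.z n) :
    psf L n b w = psf L (n + 1) b w := by
  rcases cases_w L (n + 1) w with h' | ⟨m, h1, h2, h3⟩
  · rw [psf_none L _ _ _ h', psf_none L]
    intro j hj
    rcases Nat.eq_or_lt_of_le hj with rfl | hj
    · exact h
    · exact h' j hj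
  · rw [psf_eq L _ _ _ m h1 h2 h3, psf_eq L n b w m (by omega) h2]
    intro j h4 h5
    rcases Nat.eq_or_lt_of_le h4 with rfl | h4
    · exact h
    · exact h3 j h4 h5

theorem am_closed (n : ℕ) : ∀ g ∈ Gn L n, g ∈ Am L n := by
  intro g hg
  refine Subgroup.closure_induction (p := fun g _ => g ∈ Am L n) ?_ ?_ ?_ ?_ hg
  · rintro g (⟨r, _, h⟩ | ⟨b, h⟩) j hj w y
    · rw [h, h, Function.update_of_ne (by omega : n ≠ j)]
      exact Function.update_comm (by omega) _ _ _
    · rw [h, h]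
      exact psf_update L n b j hj w y
  · intro j _ w y
    rfl
  · intro g e _ _ hg he j hj w y
    rw [Equiv.Perm.mul_apply, Equiv.Perm.mul_apply, he j hj w y, hg j hj]
  · intro g _ hg j hj w y
    rw [Equiv.Perm.inv_eq_iff_eq, hg j hj, app_inv]

theorem t_B2 (h : S_B1 L) : S_B2 L := by
  refine ⟨am_closed L, ?_⟩
  intro n g hg
  refine Subgroup.closure_induction (p := fun g _ => ∃ r ∈ L.P n,
    ∃ f : L.E n → Equiv.Perm (Om L), (∀ x, f x ∈ Gn L (n + 1)) ∧ MkR L n g r f) ?_ ?_ ?_ ?_ hg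
  · rintro g (⟨r, hr, hg⟩ | ⟨b, hg⟩)
    · exact ⟨r, hr, fun _ => 1, fun _ => one_mem _, fun w => hg w⟩
    · obtain ⟨φ, hφ⟩ := h.1 (n + 1)
      obtain ⟨ψ, hψ⟩ := h.2 (n + 1)
      have hb : L.rho (n + 1) b ∈ L.P (n + 1) := by
        rw [← L.rho_range (n + 1)]
        exact ⟨b, rfl⟩
      refine ⟨1, one_mem _, fun x => if x = L.z n then ψ b else
        if x ∈ L.X n then φ ⟨L.rho (n + 1) b, hb⟩ else 1, ?_, ?_⟩
      · intro x
        dsimp only
        split_ifs
        · exact Subgroup.subset_closure (Or.inr ⟨b, hψ b⟩)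
        · exact Subgroup.subset_closure (Or.inl ⟨L.rho (n + 1) b, hb, hφ _⟩)
        · exact one_mem _
      · intro w
        rw [hg, Equiv.Perm.one_apply]
        dsimp only
        by_cases h1 : w n = L.z n
        · rw [if_pos h1, hψ, psf_z L n b w h1]
          rw [Function.update_eq_self_iff.2 (psf_apply L n b w).symm]
        · rw [if_neg h1, psf_eq L n b w n le_rfl h1 (fun j h4 h5 => by omega)]
          by_cases h2 : w n ∈ L.X n
          · rw [if_pos h2, if_pos h2, hφ]
            symm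
            rw [Function.update_eq_self_iff]
            rw [Function.update_of_ne (by omega)]
          · rw [if_neg h2, if_neg h2, Equiv.Perm.one_apply, Function.update_eq_self]
  · exact ⟨1, one_mem _, fun _ => 1, fun _ => one_mem _, fun w => by
      rw [Equiv.Perm.one_apply, Equiv.Perm.one_apply, Function.update_eq_self]⟩
  · rintro d e _ _ ⟨r, hr, f, hf, hd⟩ ⟨s, hs, k, hk, he⟩
    refine ⟨r * s, mul_mem hr hs, fun x => f (s x) * k x, fun x => mul_mem (hf _) (hk _), ?_⟩
    intro w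
    have e1 : (e w) n = s (w n) := by
      rw [he w, Function.update_self]
    rw [Equiv.Perm.mul_apply, hd (e w), e1, he w,
      am_closed L (n + 1) (f (s (w n))) (hf _) n (Nat.lt_succ_self n), Function.update_idem]
    rfl
  · rintro d _ ⟨r, hr, f, hf, hd⟩
    refine ⟨r⁻¹, inv_mem hr, fun x => (f (r⁻¹ x))⁻¹, fun x => inv_mem (hf _), ?_⟩
    intro w
    rw [Equiv.Perm.inv_eq_iff_eq]
    symm
    dsimp only
    rw [hd, Function.update_self,
      am_closed L (n + 1) (f (r⁻¹ (w n))) (hf _) n (Nat.lt_succ_self n), Function.update_idem,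
      app_inv, app_inv, Function.update_eq_self]

end Pool.Agent.N413.CG
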